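import Pool.Agent.H90.DE.GWMain

/-!
# D-type latin squares of order `2 ^ (d m)` whose square is latin (MP_2f0703_co)
-/

set_option autoImplicit false

namespace Pool.Agent.Results.MP_2f0703_co.LargePowersOfTwo

open Pool.Agent.H90.DE

/-- `L i` is the row `i`, a permutation of the symbols; the array is a latin square if no column repeats a symbol -/
def IsLatin {n : ℕ} (L : Fin n → Equiv.Perm (Fin n)) : Prop :=
  ∀ j : Fin n, Function.Injective (fun i => L i j)

/-- every row fixes exactly one point and permutes the other points in a single cycle -/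
def IsDType {n : ℕ} (L : Fin n → Equiv.Perm (Fin n)) : Prop :=
  ∀ i : Fin n, (∃! x, L i x = x) ∧ ∀ x y, L i x ≠ x → L i y ≠ y → ∃ k : ℕ, ((L i) ^ k) x = y

/-- the product of two arrays, row by row: `(L M)_i (j) = L_i (M_i (j))` -/
def prod {n : ℕ} (L M : Fin n → Equiv.Perm (Fin n)) : Fin n → Equiv.Perm (Fin n) := fun i => L i * M i

/-- `L` is isotopic to the Cayley table of a group: permuting rows, columns and symbols gives the table -/
def BasedOnGroup {n : ℕ} (L : Fin n → Equiv.Perm (Fin n)) : Prop :=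
  ∃ (G : Type) (_ : Group G) (r c s : Fin n ≃ G), ∀ i j, s (L i j) = r i * c j

/-- there is a D-type latin square of order `n` which is not based on a group and whose square is latin -/
def HasSquare (n : ℕ) : Prop :=
  ∃ L : Fin n → Equiv.Perm (Fin n), IsLatin L ∧ IsDType L ∧ ¬ BasedOnGroup L ∧ IsLatin (prod L L)

theorem main {m u e : ℕ} (hm : 1 ≤ m) (hu : 2 ≤ u) (he : e ∣ 2 ^ m - 1) [NeZero e]
    (hW : ∀ (F : Type) [Field F] [Fintype F] [CharP F 2], Fintype.card F = 2 ^ (u * m) →
      ∃ (a : F) (c : F → ZMod e) (b : ZMod e → F) (γ δ : ZMod e) (E : ℕ), GW F a e c b γ δ ∧ ∏ i, b i = a ^ E ∧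
      (∀ M : ℕ, e ∣ M → ∃ k : ℕ, (a ^ E) ^ k = a ^ M) ∧
      ¬ ∀ i : ZMod e, b (i + γ) * (1 + b i) = b i * (1 + b (i + 1))) : HasSquare (2 ^ (u * m)) := by
  classical
  haveI : Fact (Nat.Prime 2) := ⟨Nat.prime_two⟩
  have hum : u * m ≠ 0 := Nat.mul_ne_zero (by omega) (by omega)
  let F := GaloisField 2 (u * m)
  letI : Fintype F := Fintype.ofFinite F
  have hcard : Fintype.card F = 2 ^ (u * m) := by
    rw [← Nat.card_eq_fintype_card]
    exact GaloisField.card 2 (u * m) hum
  obtain ⟨a, c, b, γ, δ, E, W, hE, hgen, hnid⟩ := hW F hcard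
  let ε : F ≃ Fin (2 ^ (u * m)) := Fintype.equivFinOfCardEq hcard
  let P : Equiv.Perm F := Equiv.ofBijective (f c b) (Finite.injective_iff_bijective.1 W.f_inj)
  have hP : ∀ x, P x = f c b x := fun x => rfl
  have hPk : ∀ (k : ℕ) (x : F), (P ^ k) x = (f c b)^[k] x := by
    intro k
    induction k with
    | zero => intro x; rfl
    | succ k ih =>
      intro x
      rw [pow_succ, Equiv.Perm.mul_apply, ih, Function.iterate_succ_apply, hP]
  let row : F → Equiv.Perm F := fun i => (Equiv.subRight i).trans (P.trans (Equiv.addLeft i))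
  have hrow : ∀ i x, row i x = i + f c b (x - i) := fun i x => rfl
  let L : Fin (2 ^ (u * m)) → Equiv.Perm (Fin (2 ^ (u * m))) :=
    fun i => (ε.symm.trans (row (ε.symm i))).trans ε
  have hL : ∀ i x, L i x = ε (ε.symm i + f c b (ε.symm x - ε.symm i)) := fun i x => rfl
  have hpow : ∀ (i : Fin (2 ^ (u * m))) (k : ℕ) (x : Fin (2 ^ (u * m))),
      ((L i) ^ k) x = ε (ε.symm i + (P ^ k) (ε.symm x - ε.symm i)) := by
    intro i k
    induction k with
    | zero => intro x; simp
    | succ n ih =>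
      intro x
      rw [pow_succ, Equiv.Perm.mul_apply, ih, hL, Equiv.symm_apply_apply, pow_succ, Equiv.Perm.mul_apply, hP,
        add_sub_cancel_left]
  refine ⟨L, ?_, ?_, ?_, ?_⟩
  · intro j i i' hij
    have h1 : L i j = L i' j := hij
    rw [hL, hL] at h1
    have h3 := ε.injective h1
    have h4 : f c b (ε.symm j - ε.symm i) + (ε.symm j - ε.symm i) =
        f c b (ε.symm j - ε.symm i') + (ε.symm j - ε.symm i') := by
      have h5 := W.two
      linear_combination h3 - (ε.symm i - ε.symm i') * h5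
    have h5 := W.diff_inj h4
    exact ε.symm.injective (sub_right_injective h5)
  · intro i
    have fix : ∀ x, L i x = x ↔ x = i := by
      intro x
      rw [hL]
      constructor
      · intro hx
        have h1 : ε.symm i + f c b (ε.symm x - ε.symm i) = ε.symm x := by
          apply ε.injective; rw [hx, Equiv.apply_symm_apply]
        have h3 : f c b (ε.symm x - ε.symm i) + (ε.symm x - ε.symm i) = f c b 0 + 0 := by
          rw [f_zero]
          have h5 := W.two
          linear_combination h1 + (ε.symm x - ε.symm i) * h5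
        have h4 := W.diff_inj h3
        exact ε.symm.injective (sub_eq_zero.1 h4)
      · rintro rfl
        rw [sub_self, f_zero, add_zero, Equiv.apply_symm_apply]
    refine ⟨⟨i, (fix i).2 rfl, fun x hx => (fix x).1 hx⟩, ?_⟩
    intro x y hx hy
    have hx' : ε.symm x - ε.symm i ≠ 0 := fun h0 => hx ((fix x).2 (ε.symm.injective (sub_eq_zero.1 h0)))
    have hy' : ε.symm y - ε.symm i ≠ 0 := fun h0 => hy ((fix y).2 (ε.symm.injective (sub_eq_zero.1 h0)))
    obtain ⟨k, hk⟩ := W.reach hE hgen hx'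
    obtain ⟨l, hl⟩ := W.reach hE hgen hy'
    rw [← hPk] at hk hl
    have hfin := isOfFinOrder_of_finite P
    obtain ⟨n, hn⟩ : ∃ n : ℕ, (P ^ n) (ε.symm x - ε.symm i) = 1 := by
      have h3 : (P ^ k)⁻¹ ∈ Submonoid.powers P := by
        rw [hfin.mem_powers_iff_mem_zpowers]
        exact (Subgroup.zpowers P).inv_mem ((Subgroup.zpowers P).pow_mem (Subgroup.mem_zpowers _) k)
      obtain ⟨n, hn⟩ := h3
      refine ⟨n, ?_⟩
      have hn' : P ^ n = (P ^ k)⁻¹ := hn
      rw [hn', ← hk, ← Equiv.Perm.mul_apply, inv_mul_cancel, Equiv.Perm.one_apply]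
    refine ⟨l + n, ?_⟩
    rw [hpow, pow_add, Equiv.Perm.mul_apply, hn, hl, add_sub_cancel, Equiv.apply_symm_apply]
  · rintro ⟨G, hG, r, c', s, H⟩
    refine W.not_group hm hu hcard he hnid G (ε.trans r) (ε.trans c') (ε.trans s) fun i j => ?_
    have h1 := H (ε i) (ε j)
    rw [hL, Equiv.symm_apply_apply, Equiv.symm_apply_apply] at h1
    exact h1
  · intro j i i' hij
    have h1 : ((L i) ^ 2) j = ((L i') ^ 2) j := by
      rw [pow_two, pow_two]; exact hij
    rw [hpow, hpow] at h1
    have h3 := ε.injective h1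
    rw [hPk, hPk] at h3
    have h4 : f c b (f c b (ε.symm j - ε.symm i)) + (ε.symm j - ε.symm i) =
        f c b (f c b (ε.symm j - ε.symm i')) + (ε.symm j - ε.symm i') := by
      have h5 := W.two
      have h6 : ∀ x, (f c b)^[2] x = f c b (f c b x) := fun x => rfl
      rw [h6, h6] at h3
      linear_combination h3 - (ε.symm i - ε.symm i') * h5
    have h5 := W.diff2_inj h4
    exact ε.symm.injective (sub_right_injective h5)

/-- For every `d ≥ 2` there is an `M` such that for all `m ≥ M` there is a D-type latin square of order `2 ^ (d m)`, not based on a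
group, whose square is a latin square. -/
theorem result : ∀ d : ℕ, 2 ≤ d → ∃ M : ℕ, ∀ m : ℕ, M ≤ m → HasSquare (2 ^ (d * m)) := by
  intro d hd
  have h4 : 4 ≤ 2 ^ d := by
    calc 4 = 2 ^ 2 := by norm_num
      _ ≤ 2 ^ d := Nat.pow_le_pow_right (by norm_num) hd
  haveI : NeZero (2 ^ d - 1) := ⟨by omega⟩
  have hodd : (2 ^ d - 1) % 2 = 1 := by
    obtain ⟨v, hv⟩ : ∃ v, d = v + 1 := ⟨d - 1, by omega⟩
    have h5 : 2 ^ d = 2 * 2 ^ v := by rw [hv, pow_succ, mul_comm]
    omega
  obtain ⟨N0, hN0⟩ := exists_gw (2 ^ d - 1) (by omega) hodd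
  refine ⟨N0 + 2, fun m hm => ?_⟩
  rw [mul_comm d m]
  refine main (e := 2 ^ d - 1) (by omega) (by omega) (dvd_refl _) fun F _ _ _ hcard => hN0 F ?_ ?_
  · rw [hcard]
    have h6 : m < 2 ^ m := Nat.lt_two_pow_self
    have h7 : 2 ^ m ≤ 2 ^ (m * d) := Nat.pow_le_pow_right (by norm_num) (Nat.le_mul_of_pos_right m (by omega))
    omega
  · rw [hcard, mul_comm m d, pow_mul]
    exact Nat.sub_one_dvd_pow_sub_one (2 ^ d) m

end Pool.Agent.Results.MP_2f0703_co.LargePowersOfTwo
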